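import Pool.Agent.Helper98.DISC.GoalsC

/-! # Project DISC, packet LEV -/

open MeasureTheory Set Filter Topology

noncomputable section

namespace Pool.Agent.Helper8.DISC

open Pool.Agent.Helper98.DISC

theorem mul_neg_iff_pos_left8 {c x : ℝ} (hc : 0 < c) : c * x < 0 ↔ x < 0 := by
  constructor
  · intro h
    by_contra h0
    push Not at h0
    have := mul_nonneg hc.le h0
    linarith
  · intro h
    exact mul_neg_of_pos_of_neg hc h

theorem ne_of_cr {a b w : ℂ} (h : 0 < cr a w b) : w - b ≠ 0 ∧ a - w ≠ 0 ∧ a - b ≠ 0 := by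
  unfold cr at h
  refine ⟨?_, ?_, ?_⟩
  · intro h0
    rw [sub_eq_zero] at h0
    subst h0
    linarith
  · intro h0
    rw [sub_eq_zero] at h0
    subst h0
    linarith
  · intro h0
    rw [sub_eq_zero] at h0
    subst h0
    linarith

theorem prod_eq {a b z : ℂ} (h : 0 < cr a z b) :
    (z - b) * (starRingEnd ℂ) (a - z) =
      (‖z - b‖ * ‖z - a‖ : ℝ) * Complex.exp ((al a z b + ps a z b : ℝ) * Complex.I) := by
  obtain ⟨h1, h2, h3⟩ := ne_of_cr h
  have h4 : z - a ≠ 0 := fun h0 => h2 (by linear_combination -h0)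
  have h5 : b - a ≠ 0 := fun h0 => h3 (by linear_combination -h0)
  have e1 := Complex.norm_mul_exp_arg_mul_I ((z - b) / (a - b))
  have e2 := Complex.norm_mul_exp_arg_mul_I ((b - a) / (z - a))
  rw [norm_div, Complex.ofReal_div] at e1 e2
  have n1 : ((‖a - b‖ : ℝ) : ℂ) ≠ 0 := by exact_mod_cast norm_ne_zero_iff.2 h3
  have n2 : ((‖z - a‖ : ℝ) : ℂ) ≠ 0 := by exact_mod_cast norm_ne_zero_iff.2 h4
  have n3 : ‖b - a‖ = ‖a - b‖ := norm_sub_rev _ _
  rw [n3] at e2
  have e3 : Complex.exp ((al a z b + ps a z b : ℝ) * Complex.I) =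
      Complex.exp ((al a z b : ℝ) * Complex.I) * Complex.exp ((ps a z b : ℝ) * Complex.I) := by
    rw [← Complex.exp_add]
    congr 1
    push_cast
    ring
  have e4 : (((‖z - b‖ : ℝ) : ℂ) / ((‖z - a‖ : ℝ) : ℂ)) *
      Complex.exp ((al a z b + ps a z b : ℝ) * Complex.I) = (z - b) / (a - z) := by
    have e5 : (z - b) / (a - z) = ((z - b) / (a - b)) * ((b - a) / (z - a)) := by
      field_simp
      ring
    rw [e5, ← e1, ← e2, e3]
    change _ = _ * Complex.exp ((al a z b : ℝ) * Complex.I) *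
      (_ * Complex.exp ((ps a z b : ℝ) * Complex.I))
    field_simp
  have e6 : (starRingEnd ℂ) (a - z) = ((‖z - a‖ : ℝ) : ℂ) * ((‖z - a‖ : ℝ) : ℂ) / (a - z) := by
    rw [eq_div_iff h2, mul_comm, Complex.mul_conj, Complex.normSq_eq_norm_sq, norm_sub_rev a z]
    push_cast
    ring
  rw [e6]
  have e7 : (z - b) * (((‖z - a‖ : ℝ) : ℂ) * ((‖z - a‖ : ℝ) : ℂ) / (a - z)) =
      ((z - b) / (a - z)) * ((‖z - a‖ : ℝ) : ℂ) * ((‖z - a‖ : ℝ) : ℂ) := by ring
  rw [e7, ← e4]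
  push_cast
  field_simp

theorem dq_eq {a b z : ℂ} (h : 0 < cr a z b) (φ : ℝ) :
    dq a b φ z = ‖z - b‖ * ‖z - a‖ * Real.sin (al a z b + ps a z b - φ) := by
  unfold dq
  rw [prod_eq h, mul_assoc, ← Complex.exp_add]
  have e : ((al a z b + ps a z b : ℝ) * Complex.I + -(φ * Complex.I)) =
      ((al a z b + ps a z b - φ : ℝ) : ℂ) * Complex.I := by
    push_cast
    ring
  rw [e, Complex.im_ofReal_mul, Complex.exp_ofReal_mul_I_im]

theorem sin_neg_iff {x : ℝ} (h1 : -Real.pi < x) (h2 : x < Real.pi) : Real.sin x < 0 ↔ x < 0 := by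
  constructor
  · intro h
    by_contra h0
    push Not at h0
    exact absurd (Real.sin_nonneg_of_nonneg_of_le_pi h0 h2.le) (not_le.2 h)
  · intro h
    exact Real.sin_neg_of_neg_of_neg_pi_lt h h1

theorem sin_zero_iff {x : ℝ} (h1 : -Real.pi < x) (h2 : x < Real.pi) : Real.sin x = 0 ↔ x = 0 :=
  Real.sin_eq_zero_iff_of_lt_of_lt h1 h2

theorem lev (hS : S_SAM) : S_LEV := by
  intro a b w hw
  have pos : ∀ z, 0 < cr a z b → 0 < ‖z - b‖ * ‖z - a‖ := fun z hz => by
    obtain ⟨h1, h2, h3⟩ := ne_of_cr hz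
    have h4 : z - a ≠ 0 := fun h0 => h2 (by linear_combination -h0)
    exact mul_pos (norm_pos_iff.2 h1) (norm_pos_iff.2 h4)
  have key : ∀ z, 0 < cr a z b → ∀ φ ∈ Ioo 0 Real.pi,
      (dq a b φ z < 0 ↔ al a z b + ps a z b < φ) ∧ (dq a b φ z = 0 ↔ al a z b + ps a z b = φ) := by
    intro z hz φ hφ
    obtain ⟨⟨s1, s2, s3⟩, -⟩ := hS a b z hz
    have hp := pos z hz
    rw [dq_eq hz]
    have l1 : -Real.pi < al a z b + ps a z b - φ := by linarith [hφ.2]
    have l2 : al a z b + ps a z b - φ < Real.pi := by linarith [hφ.1]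
    constructor
    · rw [mul_neg_iff_pos_left8 hp, sin_neg_iff l1 l2, sub_neg]
    · rw [mul_eq_zero, or_iff_right hp.ne', sin_zero_iff l1 l2, sub_eq_zero]
  refine ⟨fun φ hφ => (key w hw φ hφ).1, fun z hz => ?_⟩
  obtain ⟨⟨s1, s2, s3⟩, -, -, s4⟩ := hS a b w hw
  have hk := key z hz (al a w b + ps a w b) ⟨by linarith, s3⟩
  rw [s4 z]
  have hp := pos w hw
  constructor
  · rw [mul_neg_iff_pos_left8 hp]
    exact hk.1
  · rw [mul_eq_zero, or_iff_right hp.ne']
    exact hk.2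

end Pool.Agent.Helper8.DISC
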